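import Pool.Agent.H14R2.RD.S.EXB
import Pool.Agent.H14R2.RD.S.TRP
import Pool.Agent.H14R2.RD.S.LT

namespace RC14
open scoped InnerProductSpace
open Finset Filter Topology

variable {V : Type*} [NormedAddCommGroup V] [InnerProductSpace ℂ V] [FiniteDimensional ℂ V]

namespace GT726

theorem smul_symm (A : Module.End ℂ V) (hA : A.IsSymmetric) (m : ℕ) :
    (((1 / 2 ^ m : ℂ)) • A : Module.End ℂ V).IsSymmetric := by
  intro x y
  have hc : (starRingEnd ℂ) (1 / 2 ^ m : ℂ) = (1 / 2 ^ m : ℂ) := by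
    have h2 : (starRingEnd ℂ) (2 : ℂ) = 2 := by
      have := Complex.conj_ofReal 2
      simpa using this
    rw [map_div₀, map_pow, h2, map_one]
  rw [LinearMap.smul_apply, LinearMap.smul_apply, inner_smul_left, inner_smul_right, hc, hA x y]

theorem ex_pow (A : Module.End ℂ V) (m : ℕ) : ex ((1 / 2 ^ m : ℂ) • A) ^ 2 ^ m = ex A := by
  rw [← ex_nsmul]
  congr 1
  rw [← Nat.cast_smul_eq_nsmul ℂ, smul_smul]
  push_cast
  rw [mul_one_div_cancel (pow_ne_zero _ two_ne_zero), one_smul]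

end GT726

/-- Golden-Thompson inequality -/
theorem GT (A B : Module.End ℂ V) (hA : A.IsSymmetric) (hB : B.IsSymmetric) :
    rtr (ex (A + B)) ≤ rtr (ex A * ex B) := by
  refine le_of_tendsto (LT A B) (Eventually.of_forall fun m => ?_)
  have h := TRP (ex ((1 / 2 ^ m : ℂ) • A)) (ex ((1 / 2 ^ m : ℂ) • B))
    (ex_symm _ (GT726.smul_symm A hA m)) (ex_symm _ (GT726.smul_symm B hB m))
    (ex_pos _ (GT726.smul_symm A hA m)) (ex_pos _ (GT726.smul_symm B hB m)) m
  rwa [GT726.ex_pow, GT726.ex_pow] at h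

end RC14
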