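import Pool.Agent.H14R2.RD.S.EXB

namespace RC14
open scoped InnerProductSpace
open Finset

variable {V : Type*} [NormedAddCommGroup V] [InnerProductSpace ℂ V] [FiniteDimensional ℂ V]

namespace KL726

theorem rtr_eq {n : ℕ} (b : OrthonormalBasis (Fin n) ℂ V) (A : Module.End ℂ V) :
    rtr A = ∑ l, (⟪A (b l), b l⟫_ℂ).re := by
  unfold rtr
  rw [LinearMap.trace_eq_sum_inner A b, Complex.re_sum]
  refine Finset.sum_congr rfl fun l _ => ?_
  rw [← inner_conj_symm, Complex.conj_re]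

theorem inner_smul_self (b : V) (hb : ‖b‖ = 1) (c : ℂ) : (⟪c • b, b⟫_ℂ).re = c.re := by
  rw [inner_smul_left, inner_self_eq_norm_sq_to_K, hb]
  simp

theorem sum_symm {ι : Type*} (s : Finset ι) (w : ι → ℝ) (A : ι → Module.End ℂ V)
    (hA : ∀ i, (A i).IsSymmetric) : (∑ i ∈ s, (w i : ℂ) • A i : Module.End ℂ V).IsSymmetric := by
  intro x y
  simp only [LinearMap.sum_apply, LinearMap.smul_apply, sum_inner, inner_sum, inner_smul_left,
    inner_smul_right, Complex.conj_ofReal]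
  exact Finset.sum_congr rfl fun i _ => by rw [hA i x y]

end KL726

/-- convexity of `A ↦ tr exp A` -/
theorem KL {ι : Type*} (s : Finset ι) (w : ι → ℝ) (hw : ∀ i ∈ s, 0 ≤ w i)
    (hw1 : ∑ i ∈ s, w i = 1) (A : ι → Module.End ℂ V) (hA : ∀ i, (A i).IsSymmetric) :
    rtr (ex (∑ i ∈ s, (w i : ℂ) • A i)) ≤ ∑ i ∈ s, w i * rtr (ex (A i)) := by
  have hM := KL726.sum_symm s w A hA
  set M : Module.End ℂ V := ∑ i ∈ s, (w i : ℂ) • A i with hMdef
  set b := hM.eigenvectorBasis rfl with hb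
  have hbn : ∀ l, ‖b l‖ = 1 := fun l => b.norm_eq_one l
  rw [KL726.rtr_eq b]
  have h1 : ∀ l, (⟪ex M (b l), b l⟫_ℂ).re ≤ ∑ i ∈ s, w i * (⟪ex (A i) (b l), b l⟫_ℂ).re := by
    intro l
    have he : M (b l) = ((hM.eigenvalues rfl l : ℝ) : ℂ) • b l :=
      hM.apply_eigenvectorBasis rfl l
    have h2 : (⟪M (b l), b l⟫_ℂ).re = hM.eigenvalues rfl l := by
      rw [he, KL726.inner_smul_self _ (hbn l), Complex.ofReal_re]
    have h3 : (⟪M (b l), b l⟫_ℂ).re = ∑ i ∈ s, w i • (⟪A i (b l), b l⟫_ℂ).re := by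
      rw [hMdef, LinearMap.sum_apply, sum_inner, Complex.re_sum]
      refine Finset.sum_congr rfl fun i _ => ?_
      rw [LinearMap.smul_apply, inner_smul_left, Complex.conj_ofReal, Complex.re_ofReal_mul,
        smul_eq_mul]
    rw [ex_eig M (b l) _ he, KL726.inner_smul_self _ (hbn l), Complex.exp_ofReal_re, ← h2, h3]
    calc Real.exp (∑ i ∈ s, w i • (⟪A i (b l), b l⟫_ℂ).re)
        ≤ ∑ i ∈ s, w i • Real.exp (⟪A i (b l), b l⟫_ℂ).re :=
          convexOn_exp.map_sum_le hw hw1 (fun _ _ => Set.mem_univ _)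
      _ ≤ ∑ i ∈ s, w i * (⟪ex (A i) (b l), b l⟫_ℂ).re :=
          Finset.sum_le_sum fun i hi => by
            rw [smul_eq_mul]
            exact mul_le_mul_of_nonneg_left (ex_jensen (A i) (hA i) (b l) (hbn l)) (hw i hi)
  calc ∑ l, (⟪ex M (b l), b l⟫_ℂ).re
      ≤ ∑ l, ∑ i ∈ s, w i * (⟪ex (A i) (b l), b l⟫_ℂ).re := Finset.sum_le_sum fun l _ => h1 l
    _ = ∑ i ∈ s, w i * rtr (ex (A i)) := by
        rw [Finset.sum_comm]
        refine Finset.sum_congr rfl fun i _ => ?_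
        rw [KL726.rtr_eq b, Finset.mul_sum]

end RC14
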